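import Pool.Agent.V5helper70.FF.Pb

/-!
# Chains and Petersen minors: the version for 2-blocks
-/

set_option autoImplicit false
set_option linter.unusedSectionVars false
set_option synthInstance.maxHeartbeats 400000
set_option synthInstance.maxSize 2048

namespace Pool.Agent.V5helper70.FF

open Finset Pool.Agent.TH676.Z Pool.Agent.R926.SC

variable {V E : Type} [Fintype V] [DecidableEq V] [Fintype E] [DecidableEq E]

/-- a Petersen minor of a contraction is a Petersen minor -/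
theorem pm_lift {s t : E → V} {F : Finset E} {r : V → V} (q1 : ∀ e ∈ F, r (s e) = r (t e))
    (q3 : ∀ Y : Finset V, Disjoint (crs s t Y) F → ∀ x y, r x = r y → (x ∈ Y ↔ y ∈ Y))
    (h : TH499.TF.PM (r ∘ s) (r ∘ t)) : TH499.TF.PM s t := by
  classical
  obtain ⟨S, h1, h2, h3⟩ := h
  refine ⟨fun i => univ.filter (fun v => r v ∈ S i), ?_, ?_, ?_⟩
  · intro i A hA hAn hAne
    by_cases hF : Disjoint (crs s t A) F
    · have hq := q3 A hF
      have hsub : A.image r ⊆ S i := by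
        intro x hx
        obtain ⟨a, ha, rfl⟩ := mem_image.1 hx
        exact (mem_filter.1 (hA ha)).2
      obtain ⟨e, a, b, ha, hb, hbA, hj⟩ := h1 i (A.image r) hsub (hAn.image r) (by
        intro h4
        apply hAne
        refine Subset.antisymm hA fun v hv => ?_
        have h5 : r v ∈ A.image r := by
          rw [h4]; exact (mem_filter.1 hv).2
        obtain ⟨a, ha, hav⟩ := mem_image.1 h5
        exact (hq a v hav).1 ha)
      obtain ⟨a', ha', rfl⟩ := mem_image.1 ha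
      rcases hj with ⟨h4, h5⟩ | ⟨h4, h5⟩
      · refine ⟨e, s e, t e, (hq _ _ h4).2 ha', mem_filter.2 ⟨mem_univ _, ?_⟩, fun h6 => hbA ?_,
          Or.inl ⟨rfl, rfl⟩⟩
        · change r (t e) = b at h5
          rw [h5]; exact hb
        · change r (t e) = b at h5
          rw [← h5]; exact mem_image_of_mem _ h6
      · refine ⟨e, t e, s e, (hq _ _ h5).2 ha', mem_filter.2 ⟨mem_univ _, ?_⟩, fun h6 => hbA ?_,
          Or.inr ⟨rfl, rfl⟩⟩
        · change r (s e) = b at h4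
          rw [h4]; exact hb
        · change r (s e) = b at h4
          rw [← h4]; exact mem_image_of_mem _ h6
    · obtain ⟨e, he, heF⟩ := not_disjoint_iff.1 hF
      rw [mem_crs] at he
      have h4 := q1 e heF
      by_cases h5 : s e ∈ A
      · have h6 : t e ∉ A := fun h => he ⟨fun _ => h, fun _ => h5⟩
        refine ⟨e, s e, t e, h5, mem_filter.2 ⟨mem_univ _, ?_⟩, h6, Or.inl ⟨rfl, rfl⟩⟩
        rw [← h4]
        exact (mem_filter.1 (hA h5)).2
      · have h6 : t e ∈ A := by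
          by_contra h
          exact he ⟨fun h' => absurd h' h5, fun h' => absurd h' h⟩
        refine ⟨e, t e, s e, h6, mem_filter.2 ⟨mem_univ _, ?_⟩, h5, Or.inr ⟨rfl, rfl⟩⟩
        rw [h4]
        exact (mem_filter.1 (hA h6)).2
  · intro i j hij
    rw [disjoint_left]
    intro v hv hv'
    exact disjoint_left.1 (h2 i j hij) (mem_filter.1 hv).2 (mem_filter.1 hv').2
  · intro i j hij
    obtain ⟨e, x, y, hx, hy, hj⟩ := h3 i j hij
    rcases hj with ⟨h4, h5⟩ | ⟨h4, h5⟩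
    · refine ⟨e, s e, t e, mem_filter.2 ⟨mem_univ _, ?_⟩, mem_filter.2 ⟨mem_univ _, ?_⟩,
        Or.inl ⟨rfl, rfl⟩⟩
      · change r (s e) = x at h4
        rw [h4]; exact hx
      · change r (t e) = y at h5
        rw [h5]; exact hy
    · refine ⟨e, t e, s e, mem_filter.2 ⟨mem_univ _, ?_⟩, mem_filter.2 ⟨mem_univ _, ?_⟩,
        Or.inr ⟨rfl, rfl⟩⟩
      · change r (t e) = x at h5
        rw [h5]; exact hx
      · change r (s e) = y at h4
        rw [h4]; exact hy

/-- **Chains.**  If every contraction `G / F` as below has a flow, where `F` is the union of a chain,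
then `G` has a flow. -/
theorem nz_of_chain {s t : E → V} (hcut : ∀ Y, (TH499.TF.dlt s t Y).card ≠ 1)
    (hPM : ¬ TH499.TF.PM s t) {m : ℕ} {C : Fin m → Finset E}
    (hC : ∀ i, (((C i \ (univ.filter (fun j => j < i)).biUnion C).card ≤ 4 ∧
        ∀ Y : Finset V, Disjoint (crs s t Y) ((univ.filter (fun j => j < i)).biUnion C) →
          (crs s t Y ∩ C i).card ≠ 1) ∨
      ∃ T₁ T₂ : Finset E, T₁ ⊆ C i ∧ T₂ ⊆ C i ∧ Disjoint T₁ T₂ ∧
        ∀ Y : Finset V, Disjoint (crs s t Y) ((univ.filter (fun j => j < i)).biUnion C) →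
          ¬ Disjoint (crs s t Y) (C i) →
            ¬ Disjoint (crs s t Y) T₁ ∧ ¬ Disjoint (crs s t Y) T₂))
    (hQ : ∀ ρ : Quot (fun x y : V => ∃ e ∈ univ.biUnion C, s e = x ∧ t e = y) → V,
      Function.Injective ρ →
      (∀ Y, (TH499.TF.dlt (fun e => ρ (Quot.mk _ (s e))) (fun e => ρ (Quot.mk _ (t e))) Y).card ≠ 1) →
      ¬ TH499.TF.PM (fun e => ρ (Quot.mk _ (s e))) (fun e => ρ (Quot.mk _ (t e))) →
      TH499.TF.NZ (fun e => ρ (Quot.mk _ (s e))) (fun e => ρ (Quot.mk _ (t e)))) :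
    TH499.TF.NZ s t := by
  classical
  set F := univ.biUnion C with hF
  obtain ⟨r, q1, -, q3, q4⟩ := quotC s t F
  set ρ : Quot (fun x y : V => ∃ e ∈ F, s e = x ∧ t e = y) → V :=
    Quot.lift r (by rintro x y ⟨e, he, rfl, rfl⟩; exact q1 e he) with hρ
  have hinj : Function.Injective ρ := by
    intro a b
    induction a using Quot.ind with
    | _ x =>
      induction b using Quot.ind with
      | _ y =>
        intro hxy
        have hxy' : r x = r y := hxy
        have h3 := q3 (univ.filter (fun v => Quot.mk (fun x y : V => ∃ e ∈ F, s e = x ∧ t e = y) v =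
          Quot.mk _ x)) ?_ x y hxy'
        · have h4 := h3.1 (mem_filter.2 ⟨mem_univ _, rfl⟩)
          exact (mem_filter.1 h4).2.symm
        · rw [disjoint_left]
          intro e he heF
          rw [mem_crs] at he
          apply he
          rw [mem_filter, mem_filter]
          have h5 : Quot.mk (fun x y : V => ∃ e ∈ F, s e = x ∧ t e = y) (s e) = Quot.mk _ (t e) :=
            Quot.sound ⟨e, heF, rfl, rfl⟩
          rw [h5]
          simp only [mem_univ, true_and]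
  have h3 := hQ ρ hinj (fun Y => by
    have h4 := TH499.TF.dlt_comp s t r Y
    change (TH499.TF.dlt (r ∘ s) (r ∘ t) Y).card ≠ 1
    rw [h4]
    exact hcut _) (fun h => hPM (pm_lift q1 q3 h))
  obtain ⟨f, hf, hd⟩ := h3
  have h4 : FlA s t F := flA_of_nz s t F r q4 ⟨f, fun e _ => hf e, fun v => hd v⟩
  obtain ⟨x, y, b1, b2, b3⟩ := foldM Pool.Agent.Y335.FL.circEx s t m C
    (fun i => st_of s t m C hC i) h4
  refine ⟨fun e => (x e, y e), fun e h7 => ?_, fun v => cons_of s t x y v (b1 v) (b2 v)⟩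
  rcases b3 e (notMem_empty e) with h8 | h8
  · exact h8 (congrArg Prod.fst h7)
  · exact h8 (congrArg Prod.snd h7)

/-- transport of the tree decompositions -/
theorem hasMB_push {W : Type} {s t : E → W} {ρ : W → V} (hρ : Function.Injective ρ)
    {ι : Type} [Fintype ι] {T : SimpleGraph ι} {bag : ι → Set W} (t1 : T.IsTree)
    (t2 : ∀ e, ∃ i, s e ∈ bag i ∧ t e ∈ bag i)
    (t3 : ∀ (i j : ι) (p : T.Walk i j), p.IsPath → ∀ k ∈ p.support, bag i ∩ bag j ⊆ bag k)
    (t4 : ∀ b, FreeLE s t 5 (bag b) ∨ ∃ (r k : ℕ) (Z : Fin r → Set W) (z : Fin r → ℕ),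
      (∀ i, z i ≤ 4 ∧ FreeLE s t (z i) (Z i)) ∧ (∀ w, T.Adj b w → ∃ i, bag b ∩ bag w ⊆ Z i) ∧
        FreeLE s t k (bag b) ∧ k + ∑ i, (z i - 2) ≤ 17) :
    HasMB (fun e => ρ (s e)) (fun e => ρ (t e)) := by
  classical
  have hmem : ∀ (A : Set W) (v : V), v ∈ (ρ '' A).toFinset ↔ ∃ w ∈ A, ρ w = v := by
    intro A v
    rw [Set.mem_toFinset]
    rfl
  refine ⟨ι, inferInstance, T, fun i => (ρ '' bag i).toFinset, t1, ?_, ?_, ?_⟩
  · intro e
    obtain ⟨i, hi1, hi2⟩ := t2 e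
    exact ⟨i, (hmem _ _).2 ⟨_, hi1, rfl⟩, (hmem _ _).2 ⟨_, hi2, rfl⟩⟩
  · intro i j p hp k hk v hi hj
    obtain ⟨w, hw, rfl⟩ := (hmem _ _).1 hi
    obtain ⟨w', hw', h5⟩ := (hmem _ _).1 hj
    rw [hρ h5] at hw'
    exact (hmem _ _).2 ⟨w, t3 i j p hp k hk ⟨hw, hw'⟩, rfl⟩
  · intro b
    have key : ∀ (k : ℕ) (A : Set W), FreeLE s t k A →
        V5helper2.FF.SpK (fun e => ρ (s e)) (fun e => ρ (t e)) k (ρ '' A).toFinset := by
      intro k A hA
      exact hA.push hρ (fun v hv => (hmem _ _).1 hv)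
    rcases t4 b with h5 | ⟨r, k, Z, z, z1, z2, z3, z4⟩
    · exact Or.inl (key 5 _ h5)
    · refine Or.inr ⟨r, k, fun i => (ρ '' Z i).toFinset, z,
        fun i => ⟨(z1 i).1, key _ _ (z1 i).2⟩, ?_, key _ _ z3, z4⟩
      intro w hw
      obtain ⟨i, hi⟩ := z2 w hw
      refine ⟨i, fun v hv => ?_⟩
      rw [mem_inter] at hv
      obtain ⟨x, hx, rfl⟩ := (hmem _ _).1 hv.1
      obtain ⟨y, hy, h5⟩ := (hmem _ _).1 hv.2
      rw [hρ h5] at hy
      exact (hmem _ _).2 ⟨x, hi ⟨hx, hy⟩, rfl⟩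

/-- transport of the path decompositions -/
theorem hasPB_push {W : Type} {s t : E → W} {ρ : W → V} (hρ : Function.Injective ρ)
    {X : ℕ → Set W} (t2 : ∀ e, ∃ i, s e ∈ X i ∧ t e ∈ X i)
    (t3 : ∀ i j k, i ≤ j → j ≤ k → X i ∩ X k ⊆ X j) (t4 : ∀ i, FreeLE s t 6 (X i)) :
    HasPB (fun e => ρ (s e)) (fun e => ρ (t e)) := by
  classical
  have hmem : ∀ (A : Set W) (v : V), v ∈ (ρ '' A).toFinset ↔ ∃ w ∈ A, ρ w = v := by
    intro A v
    rw [Set.mem_toFinset]
    rfl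
  refine ⟨fun i => (ρ '' X i).toFinset, ?_, ?_, ?_⟩
  · intro e
    obtain ⟨i, hi1, hi2⟩ := t2 e
    exact ⟨i, (hmem _ _).2 ⟨_, hi1, rfl⟩, (hmem _ _).2 ⟨_, hi2, rfl⟩⟩
  · intro i j k hij hjk v hv
    rw [mem_inter] at hv
    obtain ⟨w, hw, rfl⟩ := (hmem _ _).1 hv.1
    obtain ⟨w', hw', h5⟩ := (hmem _ _).1 hv.2
    rw [hρ h5] at hw'
    exact (hmem _ _).2 ⟨w, t3 i j k hij hjk ⟨hw, hw'⟩, rfl⟩
  · intro i
    exact (t4 i).push hρ (fun v hv => (hmem _ _).1 hv)

end Pool.Agent.V5helper70.FF
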