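import Pool.Agent.V5helper70.FF.Mb
import Pool.Agent.N410.DC.Gen

/-!
# Chains, and the passage from a contraction to the graph
-/

set_option autoImplicit false
set_option linter.unusedSectionVars false
set_option synthInstance.maxHeartbeats 400000
set_option synthInstance.maxSize 2048

namespace Pool.Agent.V5helper70.FF

open Finset

section defs

variable {W E : Type}

/-- the simple graph in which two distinct vertices are adjacent if an edge in `F` joins them -/
def under (s t : E → W) (F : Set E) : SimpleGraph W where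
  Adj x y := x ≠ y ∧ ∃ e ∈ F, (s e = x ∧ t e = y) ∨ (s e = y ∧ t e = x)
  symm := ⟨fun _ _ h => ⟨h.1.symm, h.2.imp fun _ he => ⟨he.1, he.2.symm⟩⟩⟩
  loopless := ⟨fun _ h => h.1 rfl⟩

/-- the edge `e` is an isthmus -/
def IsIsthmus (s t : E → W) (e : E) : Prop :=
  ¬ (under s t {e' | e' ≠ e}).Reachable (s e) (t e)

/-- the Petersen graph is a minor -/
def HasPetersenMinor (s t : E → W) : Prop :=
  ∃ B : {p : Finset (Fin 5) // p.card = 2} → Set W,
    (∀ i, ((under s t Set.univ).induce (B i)).Connected) ∧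
    (∀ i j, i ≠ j → Disjoint (B i) (B j)) ∧
    (∀ i j : {p : Finset (Fin 5) // p.card = 2}, Disjoint i.1 j.1 →
      ∃ x ∈ B i, ∃ y ∈ B j, (under s t Set.univ).Adj x y)

/-- the edge `e` joins `x` and `y` -/
def Jo (s t : E → W) (e : E) (x y : W) : Prop := (s e = x ∧ t e = y) ∨ (s e = y ∧ t e = x)

/-- all vertices of some circuit with two, three or four edges are in `S` -/
def ShW (s t : E → W) (S : Set W) : Prop :=
  ∃ k, k ≤ 2 ∧ ∃ (v : Fin (k + 2) → W) (e : Fin (k + 2) → E), Function.Injective v ∧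
    Function.Injective e ∧ ∀ i, v i ∈ S ∧ Jo s t (e i) (v i) (v (i + 1))

/-- every set of vertices in `B` without short circuits has at most `k` elements -/
def FreeLE (s t : E → W) (k : ℕ) (B : Set W) : Prop :=
  ∀ S : Finset W, (S : Set W) ⊆ B → ¬ ShW s t S → S.card ≤ k

end defs

/-! ## from bridges to cuts, from minors to cuts -/

section

variable {V E : Type} [Fintype V] [DecidableEq V] [Fintype E] [DecidableEq E]

theorem cut_of {s t : E → V} (hI : ∀ e, ¬ IsIsthmus s t e) (Y : Finset V) :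
    (TH499.TF.dlt s t Y).card ≠ 1 := by
  intro hY
  obtain ⟨e, he⟩ := card_eq_one.mp hY
  apply hI e
  intro hr
  have hstay : ∀ x y, (under s t {e' | e' ≠ e}).Reachable x y → (x ∈ Y ↔ y ∈ Y) := by
    rintro x y ⟨p⟩
    induction p with
    | nil => exact Iff.rfl
    | cons hadj _ ih =>
      refine Iff.trans ?_ ih
      obtain ⟨_, e', he', h1⟩ := hadj
      have hn : e' ∉ TH499.TF.dlt s t Y := by
        rw [he, mem_singleton]; exact he'
      rw [TH499.TF.mem_dlt, not_not] at hn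
      rcases h1 with ⟨h2, h3⟩ | ⟨h2, h3⟩
      · rw [h2, h3] at hn; exact hn
      · rw [h2, h3] at hn; exact hn.symm
  have hm : e ∈ TH499.TF.dlt s t Y := by rw [he]; exact mem_singleton_self _
  rw [TH499.TF.mem_dlt] at hm
  exact hm (hstay _ _ hr)

/-- a minor in the sense of cuts is a minor, also before an injective relabelling -/
theorem minor_of_pm {W : Type} {s t : E → W} {ρ : W → V} (hρ : Function.Injective ρ)
    (h : TH499.TF.PM (fun e => ρ (s e)) (fun e => ρ (t e))) : HasPetersenMinor s t := by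
  classical
  obtain ⟨S, h1, h2, h3⟩ := h
  have hadj : ∀ {e x y}, x ≠ y → TH499.TF.Joins (fun e => ρ (s e)) (fun e => ρ (t e)) e (ρ x) (ρ y) →
      (under s t Set.univ).Adj x y := by
    intro e x y hxy hj
    refine ⟨hxy, e, Set.mem_univ _, ?_⟩
    rcases hj with ⟨a, b⟩ | ⟨a, b⟩
    · exact Or.inl ⟨hρ a, hρ b⟩
    · exact Or.inr ⟨hρ a, hρ b⟩
  have hend : ∀ {e x y}, TH499.TF.Joins (fun e => ρ (s e)) (fun e => ρ (t e)) e x y →
      (∃ x', ρ x' = x) ∧ ∃ y', ρ y' = y := by
    intro e x y hj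
    rcases hj with ⟨a, b⟩ | ⟨a, b⟩
    · exact ⟨⟨_, a⟩, ⟨_, b⟩⟩
    · exact ⟨⟨_, b⟩, ⟨_, a⟩⟩
  have hne : ∀ i, ∃ w, ρ w ∈ S i := by
    intro i
    obtain ⟨j, hj⟩ : ∃ j : {s : Finset (Fin 5) // s.card = 2}, Disjoint i.1 j.1 := by
      revert i; decide
    obtain ⟨e, x, y, hx, _, hj⟩ := h3 i j hj
    obtain ⟨⟨x', rfl⟩, -⟩ := hend hj
    exact ⟨x', hx⟩
  refine ⟨fun i => {w | ρ w ∈ S i}, ?_, ?_, ?_⟩
  · intro i
    obtain ⟨x0, hx0⟩ := hne i
    rw [SimpleGraph.connected_iff_exists_forall_reachable]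
    refine ⟨⟨x0, hx0⟩, ?_⟩
    by_contra hcon
    push Not at hcon
    obtain ⟨⟨y0, hy0⟩, hy1⟩ := hcon
    obtain ⟨e, a, b, ha, hb, hbA, hj⟩ := h1 i
      ((S i).filter (fun x => ∃ (w : W) (h : w ∈ {w | ρ w ∈ S i}), ρ w = x ∧
        ((under s t Set.univ).induce {w | ρ w ∈ S i}).Reachable ⟨x0, hx0⟩ ⟨w, h⟩))
      (filter_subset _ _) ⟨ρ x0, mem_filter.mpr ⟨hx0, x0, hx0, rfl, SimpleGraph.Reachable.refl _⟩⟩
      (fun h => by
        have h4 : ρ y0 ∈ (S i).filter (fun x => ∃ (w : W) (h : w ∈ {w | ρ w ∈ S i}), ρ w = x ∧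
            ((under s t Set.univ).induce {w | ρ w ∈ S i}).Reachable ⟨x0, hx0⟩ ⟨w, h⟩) := by
          rw [h]; exact hy0
        obtain ⟨_, w, h5, h6, h7⟩ := mem_filter.mp h4
        have h8 := hρ h6
        subst h8
        exact hy1 h7)
    apply hbA
    obtain ⟨-, b', rfl⟩ := hend hj
    rw [mem_filter] at ha ⊢
    obtain ⟨ha1, a', ha2, rfl, ha3⟩ := ha
    refine ⟨hb, b', hb, rfl, ha3.trans ?_⟩
    apply SimpleGraph.Adj.reachable
    have hab : a' ≠ b' := by
      rintro rfl
      exact hbA (mem_filter.mpr ⟨hb, a', ha2, rfl, ha3⟩)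
    exact hadj hab hj
  · intro i j hij
    rw [Set.disjoint_left]
    intro w hw hw'
    exact disjoint_left.mp (h2 i j hij) hw hw'
  · intro i j hij
    obtain ⟨e, x, y, hx, hy, hj⟩ := h3 i j hij
    obtain ⟨⟨x', rfl⟩, y', rfl⟩ := hend hj
    refine ⟨x', hx, y', hy, hadj ?_ hj⟩
    rintro rfl
    exact disjoint_left.mp (h2 i j (TH499.TF.pr_ne i j hij)) hx hy

/-! ## free sets under relabelling -/

theorem FreeLE.push {W : Type} {s t : E → W} {ρ : W → V} (hρ : Function.Injective ρ) {k : ℕ}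
    {B : Set W} (h : FreeLE s t k B) {B' : Finset V} (hB : ∀ v ∈ B', ∃ w ∈ B, ρ w = v) :
    V5helper2.FF.SpK (fun e => ρ (s e)) (fun e => ρ (t e)) k B' := by
  classical
  intro S hS hfree
  have h1 : (S.preimage ρ hρ.injOn).card = S.card := by
    rw [card_preimage]
    congr 1
    rw [filter_eq_self]
    intro v hv
    obtain ⟨w, -, hw⟩ := hB v (hS hv)
    exact ⟨w, hw⟩
  rw [← h1]
  refine h _ ?_ ?_
  · intro w hw
    rw [mem_coe, mem_preimage] at hw
    obtain ⟨w', hw', h2⟩ := hB _ (hS hw)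
    rw [← hρ h2]
    exact hw'
  · rintro ⟨k, hk, v, e, hv, he, hA⟩
    apply hfree
    refine ⟨k, hk, fun i => ρ (v i), e, hρ.comp hv, he, fun i => ⟨?_, ?_⟩⟩
    · have := (hA i).1
      rw [mem_coe, mem_preimage] at this
      exact this
    · rcases (hA i).2 with ⟨a, b⟩ | ⟨a, b⟩
      · exact Or.inl ⟨congrArg ρ a, congrArg ρ b⟩
      · exact Or.inr ⟨congrArg ρ a, congrArg ρ b⟩

end

/-! ## chains -/

section

variable {V E : Type} [Fintype V] [DecidableEq V] [Fintype E] [DecidableEq E]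

open Pool.Agent.TH676.Z Pool.Agent.R926.SC

/-- **Chains.**  If the graph `G / F` has a flow, where `F` is the union of a chain, then `G` is the
union of two cycles. -/
theorem two_of_chain {s t : E → V} (hI : ∀ e, ¬ IsIsthmus s t e) {m : ℕ} {C : Fin m → Finset E}
    (hC : ∀ i, (((C i \ (univ.filter (fun j => j < i)).biUnion C).card ≤ 4 ∧
        ∀ Y : Finset V, Disjoint (crs s t Y) ((univ.filter (fun j => j < i)).biUnion C) →
          (crs s t Y ∩ C i).card ≠ 1) ∨
      ∃ T₁ T₂ : Finset E, T₁ ⊆ C i ∧ T₂ ⊆ C i ∧ Disjoint T₁ T₂ ∧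
        ∀ Y : Finset V, Disjoint (crs s t Y) ((univ.filter (fun j => j < i)).biUnion C) →
          ¬ Disjoint (crs s t Y) (C i) →
            ¬ Disjoint (crs s t Y) T₁ ∧ ¬ Disjoint (crs s t Y) T₂))
    (hQ : ∀ ρ : Quot (fun x y : V => ∃ e ∈ univ.biUnion C, s e = x ∧ t e = y) → V,
      Function.Injective ρ →
      (∀ Y, (TH499.TF.dlt (fun e => ρ (Quot.mk _ (s e))) (fun e => ρ (Quot.mk _ (t e))) Y).card ≠ 1) →
      TH499.TF.NZ (fun e => ρ (Quot.mk _ (s e))) (fun e => ρ (Quot.mk _ (t e)))) :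
    ∃ C₁ C₂ : Finset E,
      (∀ v, Even (∑ e ∈ C₁, ((if s e = v then 1 else 0) + (if t e = v then 1 else 0)))) ∧
      (∀ v, Even (∑ e ∈ C₂, ((if s e = v then 1 else 0) + (if t e = v then 1 else 0)))) ∧
      C₁ ∪ C₂ = univ := by
  classical
  set F := univ.biUnion C with hF
  obtain ⟨r, q1, -, q3, q4⟩ := quotC s t F
  set ρ : Quot (fun x y : V => ∃ e ∈ F, s e = x ∧ t e = y) → V :=
    Quot.lift r (by rintro x y ⟨e, he, rfl, rfl⟩; exact q1 e he) with hρ
  have hinj : Function.Injective ρ := by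
    intro a b
    induction a using Quot.ind with
    | _ x =>
      induction b using Quot.ind with
      | _ y =>
        intro hxy
        have hxy' : r x = r y := hxy
        have h3 := q3 (univ.filter (fun v => Quot.mk (fun x y : V => ∃ e ∈ F, s e = x ∧ t e = y) v =
          Quot.mk _ x)) ?_ x y hxy'
        · have h4 := h3.1 (mem_filter.2 ⟨mem_univ _, rfl⟩)
          exact (mem_filter.1 h4).2.symm
        · rw [disjoint_left]
          intro e he heF
          rw [mem_crs] at he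
          apply he
          rw [mem_filter, mem_filter]
          have h5 : Quot.mk (fun x y : V => ∃ e ∈ F, s e = x ∧ t e = y) (s e) = Quot.mk _ (t e) :=
            Quot.sound ⟨e, heF, rfl, rfl⟩
          rw [h5]
          simp only [mem_univ, true_and]
  have h3 := hQ ρ hinj (fun Y => by
    have h4 := TH499.TF.dlt_comp s t r Y
    change (TH499.TF.dlt (r ∘ s) (r ∘ t) Y).card ≠ 1
    rw [h4]
    exact cut_of hI _)
  obtain ⟨f, hf, hd⟩ := h3
  have h4 : FlA s t F := flA_of_nz s t F r q4 ⟨f, fun e _ => hf e, fun v => hd v⟩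
  obtain ⟨x, y, b1, b2, b3⟩ := foldM Pool.Agent.Y335.FL.circEx s t m C
    (fun i => st_of s t m C hC i) h4
  have h01 : ∀ a : ZMod 2, a ≠ 0 → a = 1 := by decide
  have key : ∀ (x : E → ZMod 2), (∀ v, bd2 s t x v = 0) → ∀ v,
      Even (∑ e ∈ univ.filter (fun e => x e ≠ 0),
        ((if s e = v then 1 else 0) + (if t e = v then 1 else 0))) := by
    intro x hx v
    rw [← ZMod.natCast_eq_zero_iff_even]
    have h := hx v
    unfold bd2 at h
    refine Eq.trans ?_ h
    rw [sum_filter]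
    push_cast
    refine sum_congr rfl fun e _ => ?_
    by_cases h1 : x e = 0
    · rw [if_neg (not_not.mpr h1)]
      split_ifs <;> simp [h1]
    · rw [if_pos h1]
      split_ifs <;> simp [h01 _ h1]
  refine ⟨univ.filter (fun e => x e ≠ 0), univ.filter (fun e => y e ≠ 0), key x b1, key y b2, ?_⟩
  ext e
  simp only [mem_union, mem_filter, mem_univ, true_and, iff_true]
  exact b3 e (notMem_empty e)

end

end Pool.Agent.V5helper70.FF
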