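import Pool.Agent.V5helper70.FF.Chn
import Pool.Agent.TH395.P5.Blk5

/-!
# Four-flows and path decompositions without free sets with seven elements in a bag
-/

set_option autoImplicit false
set_option linter.unusedSectionVars false

namespace Pool.Agent.V5helper70.FF

open Finset Pool.Agent.TH499.TF Pool.Agent.R129.Four Pool.Agent.V5helper2.FF

variable {V E : Type} [Fintype V] [DecidableEq V] [Fintype E] [DecidableEq E]

/-- path decompositions in which the free subsets of the bags have at most six elements -/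
def HasPB (src dst : E → V) : Prop :=
  ∃ X : ℕ → Finset V, (∀ e, ∃ i, src e ∈ X i ∧ dst e ∈ X i) ∧
    (∀ i j k, i ≤ j → j ≤ k → X i ∩ X k ⊆ X j) ∧ ∀ i, SpK src dst 6 (X i)

theorem conPB : ConC (V := V) (E := E) HasPB := by
  intro src dst u v e h hne hj
  obtain ⟨X, h1, h2, h3⟩ := h
  obtain ⟨b, hb1, hb2⟩ : ∃ b, u ∈ X b ∧ v ∈ X b := by
    obtain ⟨b, hb1, hb2⟩ := h1 e
    rcases hj with ⟨h5, h6⟩ | ⟨h5, h6⟩
    · exact ⟨b, h5 ▸ hb1, h6 ▸ hb2⟩
    · exact ⟨b, h6 ▸ hb2, h5 ▸ hb1⟩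
  have hm : ∀ i x, x ∈ (X i).image (Pool.Agent.TH499.TF.phi u v) ↔
      (x ∈ X i ∧ x ≠ v) ∨ (x = u ∧ v ∈ X i) := by
    intro i x
    rw [mem_image]
    unfold Pool.Agent.TH499.TF.phi
    constructor
    · rintro ⟨y, hy, hyv⟩
      by_cases h : y = v
      · rw [if_pos h] at hyv
        exact Or.inr ⟨hyv.symm, h ▸ hy⟩
      · rw [if_neg h] at hyv
        exact Or.inl ⟨hyv ▸ hy, hyv ▸ h⟩
    · rintro (⟨h5, h6⟩ | ⟨h5, h6⟩)
      · exact ⟨x, h5, if_neg h6⟩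
      · exact ⟨v, h6, by rw [if_pos rfl, h5]⟩
  refine ⟨fun i => (X i).image (Pool.Agent.TH499.TF.phi u v), ?_, ?_, fun i => (h3 i).phi _ _⟩
  · intro d
    obtain ⟨i, hi1, hi2⟩ := h1 d
    exact ⟨i, mem_image_of_mem _ hi1, mem_image_of_mem _ hi2⟩
  · intro i j k hij hjk x hx
    rw [mem_inter] at hx
    obtain ⟨hxi, hxk⟩ := hx
    rw [hm] at hxi hxk ⊢
    by_cases hxu : x = u
    · -- one of the two vertices is in `X j`
      have key : u ∈ X j ∨ v ∈ X j := by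
        rcases le_total j b with hjb | hjb
        · rcases hxi with ⟨h5, -⟩ | ⟨-, h5⟩
          · exact Or.inl (h2 i j b hij hjb (mem_inter.2 ⟨hxu ▸ h5, hb1⟩))
          · exact Or.inr (h2 i j b hij hjb (mem_inter.2 ⟨h5, hb2⟩))
        · rcases hxk with ⟨h5, -⟩ | ⟨-, h5⟩
          · exact Or.inl (h2 b j k hjb hjk (mem_inter.2 ⟨hb1, hxu ▸ h5⟩))
          · exact Or.inr (h2 b j k hjb hjk (mem_inter.2 ⟨hb2, h5⟩))
      rcases key with h5 | h5
      · exact Or.inl ⟨hxu ▸ h5, hxu ▸ hne⟩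
      · exact Or.inr ⟨hxu, h5⟩
    · rcases hxi with ⟨h5, h6⟩ | ⟨h5, -⟩
      · rcases hxk with ⟨h7, -⟩ | ⟨h7, -⟩
        · exact Or.inl ⟨h2 i j k hij hjk (mem_inter.2 ⟨h5, h7⟩), h6⟩
        · exact absurd h7 hxu
      · exact absurd h5 hxu

/-- **Main step.** -/
theorem nz_of_HasPB {src dst : E → V} (hT : HasPB src dst) (hP : ¬ PM src dst)
    (hb : ∀ Y, (dlt src dst Y).card ≠ 1) : NZ src dst := by
  by_contra hnz
  have hC : ConC (V := V) (E := E) (fun s d => HasPB s d ∧ ¬ PM s d) := by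
    intro s d u v e h hne hj
    exact ⟨conPB s d u v e h.1 hne hj, fun hPM => h.2 (hPM.of_phi hne hj)⟩
  obtain ⟨s, d, hM⟩ := exists_MCo (C := fun s d => HasPB s d ∧ ¬ PM s d) _ src dst rfl ⟨hT, hP⟩
    hb hnz
  have hfree : ∀ B : Finset V, ¬ Sh s d B := fun B ⟨k, hk, v, ed, hv, hed, hA⟩ =>
    hM.no_short hC k hk v ed hv hed fun i => (hA i).2
  obtain ⟨X, h1, h2, h3⟩ := hM.cls.1
  exact hM.nz (TH395.P5.cls5 ⟨X, h1, h2, fun i => h3 i _ (Subset.refl _) (hfree _)⟩ hM.cls.2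
    hM.cut1)

end Pool.Agent.V5helper70.FF
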