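import Pool.Agent.V5helper70.FF.Mrg

/-!
# Four-flows and tree decompositions with bags of two kinds
-/

set_option autoImplicit false
set_option linter.unusedSectionVars false

namespace Pool.Agent.V5helper70.FF

open Finset Pool.Agent.TH499.TF Pool.Agent.R129.Four Pool.Agent.V5helper2.FF

/-- numbering of the nodes of a finite tree (the proof is that of `TH499/TF/TDec`, which does not
state the last line) -/
theorem numbering' {V : Type} (m : ℕ) : ∀ (ι : Type) [Fintype ι] (T : SimpleGraph ι)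
    (C : ι → Finset V), T.IsTree → PathCond T C → Fintype.card ι = m + 1 →
    ∃ (num : ι → ℕ) (par : ℕ → ℕ), Function.Injective num ∧ (∀ i, num i < m + 1) ∧
      (∀ a, 0 < a → a < m + 1 → par a < a) ∧
      (∀ i j v, num j < num i → v ∈ C i → v ∈ C j → ∃ k, num k = par (num i) ∧ v ∈ C k) ∧
      ∀ i, 0 < num i → ∃ k, num k = par (num i) ∧ T.Adj i k := by
  classical
  induction m with
  | zero =>
    intro ι _ T C _ _ hc
    have hs : ∀ i j : ι, i = j := by
      intro i j
      have h1 : Fintype.card ι ≤ 1 := by omega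
      exact Fintype.card_le_one_iff.mp h1 i j
    exact ⟨fun _ => 0, fun _ => 0, fun i j _ => hs i j, fun _ => by norm_num,
      fun a h1 h2 => by omega, fun i j v h => by simp at h, fun i h => absurd h (lt_irrefl 0)⟩
  | succ m ih =>
    intro ι _ T C hT hC hc
    haveI : Nontrivial ι := Fintype.one_lt_card_iff_nontrivial.mp (by omega)
    obtain ⟨l, hl⟩ := hT.exists_vert_degree_one_of_nontrivial
    obtain ⟨u, hlu, hu⟩ := SimpleGraph.degree_eq_one_iff_existsUnique_adj.mp hl
    have hul : u ≠ l := fun h => by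
      rw [h] at hlu
      exact T.loopless.irrefl l hlu
    have hT' : (T.induce ({l}ᶜ : Set ι)).IsTree :=
      ⟨hT.connected.induce_compl_singleton_of_degree_eq_one hl, hT.isAcyclic.induce _⟩
    have hc' : Fintype.card ({l}ᶜ : Set ι) = m + 1 := by
      have h1 := Fintype.card_compl_set ({l} : Set ι)
      rw [Set.card_singleton, hc] at h1
      exact h1
    obtain ⟨num, par, h1, h2, h3, h4, h5a⟩ := ih _ (T.induce ({l}ᶜ : Set ι)) _ hT' (hC.induce _) hc'
    have hmem : ∀ i, i ≠ l → i ∈ ({l}ᶜ : Set ι) := fun i hi => by simpa using hi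
    set num' : ι → ℕ := fun i => if h : i ∈ ({l}ᶜ : Set ι) then num ⟨i, h⟩ else m + 1 with hn'
    have hn1 : ∀ i (h : i ∈ ({l}ᶜ : Set ι)), num' i = num ⟨i, h⟩ := fun i h => by
      rw [hn']; exact dif_pos h
    have hn2 : num' l = m + 1 := by
      rw [hn']; exact dif_neg (by simp)
    refine ⟨num', fun a => if a = m + 1 then num ⟨u, hmem u hul⟩ else par a, ?_, ?_, ?_, ?_, ?_⟩
    · intro i j hij
      by_cases hi : i = l <;> by_cases hj : j = l
      · rw [hi, hj]
      · rw [hi, hn2, hn1 j (hmem j hj)] at hij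
        have := h2 ⟨j, hmem j hj⟩
        omega
      · rw [hj, hn2, hn1 i (hmem i hi)] at hij
        have := h2 ⟨i, hmem i hi⟩
        omega
      · rw [hn1 i (hmem i hi), hn1 j (hmem j hj)] at hij
        exact congrArg Subtype.val (h1 hij)
    · intro i
      by_cases hi : i = l
      · rw [hi, hn2]; omega
      · rw [hn1 i (hmem i hi)]
        have := h2 ⟨i, hmem i hi⟩
        omega
    · intro a ha ha2
      change (if a = m + 1 then num ⟨u, hmem u hul⟩ else par a) < a
      split_ifs with h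
      · rw [h]; exact h2 _
      · exact h3 a ha (by omega)
    · intro i j v hji hvi hvj
      change ∃ k, num' k = (if num' i = m + 1 then num ⟨u, hmem u hul⟩ else par (num' i)) ∧ v ∈ C k
      by_cases hi : i = l
      · subst hi
        rw [if_pos hn2]
        have hj : j ≠ i := fun h => by rw [h] at hji; omega
        refine ⟨u, hn1 u (hmem u hul), ?_⟩
        obtain ⟨p, hp⟩ := hT.connected.exists_isPath i j
        refine hC i j p hp u ?_ v hvi hvj
        have hnil : ¬ p.Nil := SimpleGraph.Walk.not_nil_of_ne (Ne.symm hj)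
        have h5 := p.adj_snd hnil
        rw [← hu _ h5]
        exact p.getVert_mem_support 1
      · have hi' := h2 ⟨i, hmem i hi⟩
        have hj : j ≠ l := by
          intro h
          rw [h, hn2, hn1 i (hmem i hi)] at hji
          omega
        rw [hn1 i (hmem i hi), hn1 j (hmem j hj)] at hji
        obtain ⟨k, hk, hk2⟩ := h4 ⟨i, hmem i hi⟩ ⟨j, hmem j hj⟩ v hji hvi hvj
        refine ⟨k.1, ?_, hk2⟩
        rw [hn1 i (hmem i hi), if_neg (by omega), hn1 k.1 k.2]
        exact hk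
    · intro i hi0
      change ∃ k, num' k = (if num' i = m + 1 then num ⟨u, hmem u hul⟩ else par (num' i)) ∧ T.Adj i k
      by_cases hi : i = l
      · subst hi
        rw [if_pos hn2]
        exact ⟨u, hn1 u (hmem u hul), hlu⟩
      · have hi' := h2 ⟨i, hmem i hi⟩
        rw [hn1 i (hmem i hi)] at hi0
        obtain ⟨k, hk, hk2⟩ := h5a ⟨i, hmem i hi⟩ hi0
        refine ⟨k.1, ?_, hk2⟩
        rw [hn1 i (hmem i hi), if_neg (by omega), hn1 k.1 k.2]
        exact hk


variable {V E : Type} [Fintype V] [DecidableEq V] [Fintype E] [DecidableEq E]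

/-- tree decompositions with bags of two kinds -/
def HasMB (src dst : E → V) : Prop :=
  ∃ (ι : Type) (_ : Fintype ι) (T : SimpleGraph ι) (bag : ι → Finset V), T.IsTree ∧
    (∀ e, ∃ i, src e ∈ bag i ∧ dst e ∈ bag i) ∧ PathCond T bag ∧
      ∀ b, SpK src dst 5 (bag b) ∨ Bg src dst T bag b

theorem conMB : ConC (V := V) (E := E) HasMB := by
  classical
  intro src dst u v e h hne hj
  obtain ⟨ι, hι, T, bag, hT, h1, h2, h3⟩ := h
  obtain ⟨c, hcu, hcv⟩ : ∃ c, u ∈ bag c ∧ v ∈ bag c := by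
    obtain ⟨b, hb1, hb2⟩ := h1 e
    rcases hj with ⟨h5, h6⟩ | ⟨h5, h6⟩
    · exact ⟨b, h5 ▸ hb1, h6 ▸ hb2⟩
    · exact ⟨b, h6 ▸ hb2, h5 ▸ hb1⟩
  have hm : ∀ i x, x ∈ (bag i).image (Pool.Agent.TH499.TF.phi u v) ↔
      (x ∈ bag i ∧ x ≠ v) ∨ (x = u ∧ v ∈ bag i) := by
    intro i x
    rw [mem_image]
    unfold Pool.Agent.TH499.TF.phi
    constructor
    · rintro ⟨y, hy, hyv⟩
      by_cases h : y = v
      · rw [if_pos h] at hyv
        exact Or.inr ⟨hyv.symm, h ▸ hy⟩
      · rw [if_neg h] at hyv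
        exact Or.inl ⟨hyv ▸ hy, hyv ▸ h⟩
    · rintro (⟨h5, h6⟩ | ⟨h5, h6⟩)
      · exact ⟨x, h5, if_neg h6⟩
      · exact ⟨v, h6, by rw [if_pos rfl, h5]⟩
  -- nodes on a path between two nodes whose bags meet `{u, v}`
  have key : ∀ (i j : ι) (p : T.Walk i j), p.IsPath → ∀ k ∈ p.support,
      (u ∈ bag i ∨ v ∈ bag i) → (u ∈ bag j ∨ v ∈ bag j) → (u ∈ bag k ∨ v ∈ bag k) := by
    intro i j p hp k hk hi hj
    obtain ⟨p1, hp1⟩ := exists_path hT i c
    obtain ⟨p2, hp2⟩ := exists_path hT c j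
    have hk2 := path_sub hT hp (p1.append p2) hk
    rw [SimpleGraph.Walk.mem_support_append_iff] at hk2
    rcases hk2 with hk2 | hk2
    · rcases hi with hi | hi
      · exact Or.inl (h2 i c p1 hp1 k hk2 u hi hcu)
      · exact Or.inr (h2 i c p1 hp1 k hk2 v hi hcv)
    · rcases hj with hj | hj
      · exact Or.inl (h2 c j p2 hp2 k hk2 u hcu hj)
      · exact Or.inr (h2 c j p2 hp2 k hk2 v hcv hj)
  refine ⟨ι, hι, T, fun i => (bag i).image (Pool.Agent.TH499.TF.phi u v), hT, ?_, ?_, ?_⟩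
  · intro d
    obtain ⟨i, hi1, hi2⟩ := h1 d
    exact ⟨i, mem_image_of_mem _ hi1, mem_image_of_mem _ hi2⟩
  · intro i j p hp k hk x hxi hxj
    change x ∈ (bag i).image (Pool.Agent.TH499.TF.phi u v) at hxi
    change x ∈ (bag j).image (Pool.Agent.TH499.TF.phi u v) at hxj
    change x ∈ (bag k).image (Pool.Agent.TH499.TF.phi u v)
    rw [hm] at hxi hxj ⊢
    by_cases hxu : x = u
    · subst hxu
      have h4 := key i j p hp k hk (hxi.elim (fun h => Or.inl h.1) (fun h => Or.inr h.2))
        (hxj.elim (fun h => Or.inl h.1) (fun h => Or.inr h.2))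
      rcases h4 with h4 | h4
      · exact Or.inl ⟨h4, hne⟩
      · exact Or.inr ⟨rfl, h4⟩
    · rcases hxi with hxi | hxi
      · rcases hxj with hxj | hxj
        · exact Or.inl ⟨h2 i j p hp k hk x hxi.1 hxj.1, hxi.2⟩
        · exact absurd hxj.1 hxu
      · exact absurd hxi.1 hxu
  · intro b
    rcases h3 b with h5 | h5
    · exact Or.inl (h5.phi _ _)
    obtain ⟨s, k, Z, z, z1, z2, z3, z4⟩ := h5
    refine Or.inr ⟨s, k, fun i => (Z i).image (Pool.Agent.TH499.TF.phi u v), z,
      fun i => ⟨(z1 i).1, (z1 i).2.phi _ _⟩, ?_, z3.phi _ _, z4⟩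
    intro w hw
    obtain ⟨i, hi⟩ := z2 w hw
    refine ⟨i, ?_⟩
    intro x hx
    rw [mem_inter] at hx
    obtain ⟨hxb, hxw⟩ := hx
    have himg : ∀ y, y ∈ bag b → y ∈ bag w → Pool.Agent.TH499.TF.phi u v y ∈
        (Z i).image (Pool.Agent.TH499.TF.phi u v) := fun y hy1 hy2 =>
      mem_image_of_mem _ (hi (mem_inter.2 ⟨hy1, hy2⟩))
    have hph : ∀ y, y ≠ v → Pool.Agent.TH499.TF.phi u v y = y := by
      intro y hy
      unfold Pool.Agent.TH499.TF.phi
      rw [if_neg hy]
    have hpv : Pool.Agent.TH499.TF.phi u v v = u := by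
      unfold Pool.Agent.TH499.TF.phi
      rw [if_pos rfl]
    rw [hm] at hxb hxw
    -- the two ends in adjacent bags are in a common bag
    have hcross : ∀ a a' : ι, T.Adj a a' → u ∈ bag a → v ∈ bag a' →
        u ∈ bag a' ∨ v ∈ bag a := by
      intro a a' haa hua hva
      obtain ⟨p, hp⟩ := exists_path hT a c
      by_cases hmem : a' ∈ p.support
      · exact Or.inl (h2 a c p hp a' hmem u hua hcu)
      · right
        have hp' : (SimpleGraph.Walk.cons haa.symm p).IsPath := by
          rw [SimpleGraph.Walk.cons_isPath_iff]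
          exact ⟨hp, hmem⟩
        exact h2 a' c _ hp' a (by
          rw [SimpleGraph.Walk.support_cons]
          exact List.mem_cons_of_mem _ p.start_mem_support) v hva hcv
    rcases hxb with ⟨b1, b2⟩ | ⟨b1, b2⟩ <;> rcases hxw with ⟨w1, w2⟩ | ⟨w1, w2⟩
    · have := himg x b1 w1
      rwa [hph x b2] at this
    · subst w1
      rcases hcross b w hw b1 w2 with h5 | h5
      · have := himg x b1 h5
        rwa [hph x b2] at this
      · have := himg v h5 w2
        rwa [hpv] at this
    · subst b1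
      rcases hcross w b hw.symm w1 b2 with h5 | h5
      · have := himg x h5 w1
        rwa [hph x w2] at this
      · have := himg v b2 h5
        rwa [hpv] at this
    · subst b1
      have := himg v b2 w2
      rwa [hpv] at this

/-- rooting and merging -/
theorem hasAD_of_free {s d : E → V} {ι : Type} [Fintype ι] {T : SimpleGraph ι}
    {bag : ι → Finset V} (t1 : T.IsTree) (t2 : ∀ e, ∃ i, s e ∈ bag i ∧ d e ∈ bag i)
    (t3 : PathCond T bag)
    (t4 : ∀ b, (bag b).card ≤ 5 ∨ ∃ (r : ℕ) (Z : Fin r → Finset V), (∀ i, (Z i).card ≤ 4) ∧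
      (∀ w, T.Adj b w → ∃ i, bag b ∩ bag w ⊆ Z i) ∧ (bag b).card + ∑ i, ((Z i).card - 2) ≤ 17) :
    N399.TB.HasAD s d := by
  classical
  obtain ⟨m, hm⟩ : ∃ m, Fintype.card ι = m + 1 := by
    have := t1.connected.nonempty
    exact ⟨Fintype.card ι - 1, by have := Fintype.card_pos (α := ι); omega⟩
  obtain ⟨num, par, h1, h2, h3, h4, h5⟩ := numbering' m ι T bag t1 t3 hm
  have hsurj : ∀ a, a < m + 1 → ∃ i, num i = a := by
    intro a ha
    have hb : Function.Bijective (fun i => (⟨num i, h2 i⟩ : Fin (m + 1))) := by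
      rw [Fintype.bijective_iff_injective_and_card]
      refine ⟨fun i j hij => h1 (by simpa using hij), by rw [hm, Fintype.card_fin]⟩
    obtain ⟨i, hi⟩ := hb.2 ⟨a, ha⟩
    exact ⟨i, by simpa using congrArg Fin.val hi⟩
  have := t1.connected.nonempty
  have hinv : ∀ i, Function.invFun num (num i) = i := Function.leftInverse_invFun h1
  refine hasAD_of_mixed (n := m + 1) (par := par) (B := fun a => bag (Function.invFun num a))
    (Nat.succ_pos m) ⟨h3, ?_⟩ ?_ ?_
  · intro a b v hba ha hva hvb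
    obtain ⟨i, rfl⟩ := hsurj a ha
    obtain ⟨j, rfl⟩ := hsurj b (by omega)
    change v ∈ bag (Function.invFun num (num i)) at hva
    change v ∈ bag (Function.invFun num (num j)) at hvb
    change v ∈ bag (Function.invFun num (par (num i)))
    rw [hinv] at hva hvb
    obtain ⟨k, hk, hk2⟩ := h4 i j v hba hva hvb
    rw [← hk, hinv]
    exact hk2
  · intro e
    obtain ⟨i, hi1, hi2⟩ := t2 e
    refine ⟨num i, h2 i, ?_⟩
    change s e ∈ bag (Function.invFun num (num i)) ∧ d e ∈ bag (Function.invFun num (num i))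
    rw [hinv i]
    exact ⟨hi1, hi2⟩
  · intro a ha
    obtain ⟨i, rfl⟩ := hsurj a ha
    unfold Big
    simp only [hinv]
    rcases t4 i with h6 | ⟨r, Z, z1, z2, z3⟩
    · exact Or.inl h6
    · refine Or.inr ⟨r, Z, z1, ?_, z3⟩
      intro w hw hiw
      obtain ⟨j, rfl⟩ := hsurj w hw
      rw [hinv]
      apply z2
      rcases hiw with ⟨h7, h8⟩ | ⟨h7, h8⟩
      · obtain ⟨k, hk, hk2⟩ := h5 i h7
        rw [h8] at hk
        rwa [← h1 hk]
      · obtain ⟨k, hk, hk2⟩ := h5 j h7
        rw [h8] at hk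
        rw [← h1 hk]
        exact hk2.symm

/-- **Main step.** -/
theorem nz_of_HasMB {src dst : E → V} (hT : HasMB src dst) (hP : ¬ PM src dst)
    (hb : ∀ Y, (dlt src dst Y).card ≠ 1) : NZ src dst := by
  by_contra hnz
  have hC : ConC (V := V) (E := E) (fun s d => HasMB s d ∧ ¬ PM s d) := by
    intro s d u v e h hne hj
    exact ⟨conMB s d u v e h.1 hne hj, fun hPM => h.2 (hPM.of_phi hne hj)⟩
  obtain ⟨s, d, hM⟩ := exists_MCo (C := fun s d => HasMB s d ∧ ¬ PM s d) _ src dst rfl ⟨hT, hP⟩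
    hb hnz
  have hfree : ∀ B : Finset V, ¬ Sh s d B := fun B ⟨k, hk, v, ed, hv, hed, hA⟩ =>
    hM.no_short hC k hk v ed hv hed fun i => (hA i).2
  obtain ⟨ι, hι, T, bag, t1, t2, t3, t4⟩ := hM.cls.1
  have hAD : N399.TB.HasAD s d := by
    refine hasAD_of_free t1 t2 t3 fun b => ?_
    rcases t4 b with h5 | ⟨r, k, Z, z, z1, z2, z3, z4⟩
    · exact Or.inl (h5 _ (Subset.refl _) (hfree _))
    · refine Or.inr ⟨r, Z, fun i => ((z1 i).2 _ (Subset.refl _) (hfree _)).trans (z1 i).1, z2, ?_⟩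
      have h5 : (bag b).card ≤ k := z3 _ (Subset.refl _) (hfree _)
      have h6 : ∑ i, ((Z i).card - 2) ≤ ∑ i, (z i - 2) := Finset.sum_le_sum fun i _ =>
        Nat.sub_le_sub_right ((z1 i).2 _ (Subset.refl _) (hfree _)) 2
      omega
  exact hM.nz (N399.TB.nz_of_cls (fun h1 h2 => N399.TB.ad4 hAD h1 h2) hM.cls.2 hM.cut1)

end Pool.Agent.V5helper70.FF
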