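import Pool.Agent.V5helper2.FF.Sp
import Pool.Agent.H112R3.TA.TreeDec

/-!
# Merging equal bags of a rooted tree decomposition
-/

set_option autoImplicit false
set_option linter.unusedSectionVars false

namespace Pool.Agent.V5helper70.FF

open Finset Pool.Agent.TH499.TF Pool.Agent.R129.Four Pool.Agent.V5helper2.FF

variable {V : Type} [DecidableEq V]

/-- rooted tree decomposition: the nodes are `0, ..., n - 1`, the parent of `i > 0` is `par i` -/
structure RT (n : ℕ) (par : ℕ → ℕ) (B : ℕ → Finset V) : Prop where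
  lt : ∀ i, 0 < i → i < n → par i < i
  conn : ∀ i j v, j < i → i < n → v ∈ B i → v ∈ B j → v ∈ B (par i)

open Pool.Agent.H112R3.TA (parTree parTree_isTree)

/-- every node whose bag contains `v` is joined to the first such node inside these nodes -/
theorem RT.walk {n : ℕ} {par : ℕ → ℕ} {B : ℕ → Finset V} (h : RT n par B) (v : V) (k : ℕ)
    (hk : k < n) (hkv : v ∈ B k) (hmin : ∀ j, v ∈ B j → k ≤ j) (i : ℕ) (hi : i < n)
    (hv : v ∈ B i) :
    ∃ p : (parTree n par).Walk ⟨i, hi⟩ ⟨k, hk⟩, ∀ x ∈ p.support, v ∈ B x.val := by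
  induction i using Nat.strong_induction_on with
  | _ i ih =>
    rcases (hmin i hv).lt_or_eq with h1 | h1
    · have h2 := h.conn i k v h1 hi hv hkv
      have hlt := h.lt i (by omega) hi
      obtain ⟨p, hp⟩ := ih (par i) hlt (hlt.trans hi) h2
      have hadj : (parTree n par).Adj ⟨i, hi⟩ ⟨par i, hlt.trans hi⟩ :=
        Or.inl ⟨by simp; omega, rfl, hlt⟩
      refine ⟨SimpleGraph.Walk.cons hadj p, ?_⟩
      intro x hx
      rw [SimpleGraph.Walk.support_cons, List.mem_cons] at hx
      rcases hx with rfl | hx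
      · exact hv
      · exact hp x hx
    · subst h1
      refine ⟨SimpleGraph.Walk.nil, ?_⟩
      intro x hx
      simp only [SimpleGraph.Walk.support_nil, List.mem_singleton] at hx
      rw [hx]; exact hv

/-- the path condition -/
theorem RT.path {n : ℕ} {par : ℕ → ℕ} {B : ℕ → Finset V} (h : RT n par B) (h0 : 0 < n) :
    PathCond (parTree n par) (fun i : Fin n => B i) := by
  intro i j p hp k hk v hi hj
  have hex : ∃ k, v ∈ B k := ⟨i, hi⟩
  classical
  have hmin : ∀ j, v ∈ B j → Nat.find hex ≤ j := fun j hj => Nat.find_min' hex hj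
  have hs := Nat.find_spec hex
  have hlt : Nat.find hex < n := (hmin i hi).trans_lt i.2
  obtain ⟨q1, hq1⟩ := h.walk v _ hlt hs hmin i i.2 hi
  obtain ⟨q2, hq2⟩ := h.walk v _ hlt hs hmin j j.2 hj
  have h3 := path_sub (parTree_isTree h0 h.lt) hp (q1.append q2.reverse) hk
  rw [SimpleGraph.Walk.mem_support_append_iff] at h3
  rcases h3 with h3 | h3
  · exact hq1 k h3
  · rw [SimpleGraph.Walk.support_reverse, List.mem_reverse] at h3
    exact hq2 k h3

/-- the highest ancestor which can be reached through equal bags -/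
noncomputable def rep (par : ℕ → ℕ) (B : ℕ → Finset V) (i : ℕ) : ℕ :=
  if _h : par i < i ∧ B i = B (par i) then rep par B (par i) else i
termination_by i
decreasing_by exact _h.1

theorem rep_of {par : ℕ → ℕ} {B : ℕ → Finset V} {i : ℕ} (h : par i < i ∧ B i = B (par i)) :
    rep par B i = rep par B (par i) := by
  rw [rep, dif_pos h]

theorem rep_not {par : ℕ → ℕ} {B : ℕ → Finset V} {i : ℕ} (h : ¬ (par i < i ∧ B i = B (par i))) :
    rep par B i = i := by
  rw [rep, dif_neg h]

theorem rep_le (par : ℕ → ℕ) (B : ℕ → Finset V) (i : ℕ) : rep par B i ≤ i := by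
  induction i using Nat.strong_induction_on with
  | _ i ih =>
    by_cases h : par i < i ∧ B i = B (par i)
    · rw [rep_of h]
      exact (ih _ h.1).trans h.1.le
    · rw [rep_not h]

theorem rep_bag (par : ℕ → ℕ) (B : ℕ → Finset V) (i : ℕ) : B (rep par B i) = B i := by
  induction i using Nat.strong_induction_on with
  | _ i ih =>
    by_cases h : par i < i ∧ B i = B (par i)
    · rw [rep_of h, ih _ h.1, ← h.2]
    · rw [rep_not h]

/-- representatives differ from their parents -/
theorem rep_ne {par : ℕ → ℕ} {B : ℕ → Finset V} {i : ℕ} (h : rep par B i = i)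
    (hlt : par i < i) : B i ≠ B (par i) := by
  intro h1
  have h2 := rep_of ⟨hlt, h1⟩
  have h3 := rep_le par B (par i)
  omega

theorem rep_rep (par : ℕ → ℕ) (B : ℕ → Finset V) (i : ℕ) :
    rep par B (rep par B i) = rep par B i := by
  induction i using Nat.strong_induction_on with
  | _ i ih =>
    by_cases h : par i < i ∧ B i = B (par i)
    · rw [rep_of h, ih _ h.1]
    · rw [rep_not h, rep_not h]

/-- a node which is not its representative gives a child of the representative with the same bag -/
theorem rep_child {par : ℕ → ℕ} {B : ℕ → Finset V} {a : ℕ} (i : ℕ) (h : rep par B i = a)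
    (hne : i ≠ a) : ∃ b, b ≤ i ∧ par b < b ∧ par b = a ∧ B b = B a := by
  induction i using Nat.strong_induction_on with
  | _ i ih =>
    by_cases h1 : par i < i ∧ B i = B (par i)
    · rw [rep_of h1] at h
      by_cases h2 : par i = a
      · exact ⟨i, le_refl _, h1.1, h2, by rw [h1.2, h2]⟩
      · obtain ⟨b, hb, h3⟩ := ih _ h1.1 h h2
        exact ⟨b, hb.trans h1.1.le, h3⟩
    · rw [rep_not h1] at h
      exact absurd h hne

/-- the condition on the bags of the nodes which are not small: the intersections with the bags of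
the neighbouring nodes are covered by small sets -/
def Big (n : ℕ) (par : ℕ → ℕ) (B : ℕ → Finset V) (b : ℕ) : Prop :=
  ∃ (s : ℕ) (Z : Fin s → Finset V), (∀ i, (Z i).card ≤ 4) ∧
    (∀ w, w < n → ((0 < b ∧ par b = w) ∨ (0 < w ∧ par w = b)) → ∃ i, B b ∩ B w ⊆ Z i) ∧
    (B b).card + ∑ i, ((Z i).card - 2) ≤ 17

/-- small bags -/
theorem small_ok {ι : Type} (C : Finset V) (D : ι → Finset V) (P : ι → Prop) (hC : C.card ≤ 5)
    (h : ∀ w, P w → C.card = 5 → ¬ C ⊆ D w) :
    ∃ (s : ℕ) (Z : Fin s → Finset V), (∀ i, (Z i).card ≤ 4) ∧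
      (∀ w, P w → ∃ i, C ∩ D w ⊆ Z i) ∧ C.card + ∑ i, ((Z i).card - 2) ≤ 17 := by
  by_cases h5 : C.card = 5
  · set φ := (Finset.equivFinOfCardEq h5).symm with hφ
    have hc : ∀ i, (C.erase (φ i : V)).card = 4 := fun i => by
      rw [card_erase_of_mem (φ i).2, h5]
    refine ⟨5, fun i => C.erase (φ i : V), fun i => (hc i).le, ?_, ?_⟩
    · intro w hw
      obtain ⟨x, hx, hxD⟩ := not_subset.1 (h w hw h5)
      refine ⟨φ.symm ⟨x, hx⟩, fun y hy => ?_⟩
      rw [mem_inter] at hy
      change y ∈ C.erase (φ (φ.symm ⟨x, hx⟩) : V)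
      rw [Equiv.apply_symm_apply, mem_erase]
      refine ⟨fun h' => hxD ?_, hy.1⟩
      have h3 : y = x := h'
      rw [← h3]
      exact hy.2
    · simp only [hc]
      simp [h5]
  · refine ⟨1, fun _ => C, fun _ => show C.card ≤ 4 by omega, fun w _ => ⟨0, inter_subset_left⟩, ?_⟩
    simp only [univ_unique, sum_const, card_singleton, one_smul]
    omega

variable {E : Type} [Fintype V] [Fintype E] [DecidableEq E]

/-- **Merging.**  Rooted tree decompositions in which every bag has at most five elements or
satisfies `Big`. -/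
theorem hasAD_of_mixed {src dst : E → V} {n : ℕ} {par : ℕ → ℕ} {B : ℕ → Finset V} (h0 : 0 < n)
    (h : RT n par B) (he : ∀ e, ∃ i, i < n ∧ src e ∈ B i ∧ dst e ∈ B i)
    (hB : ∀ i, i < n → (B i).card ≤ 5 ∨ Big n par B i) : N399.TB.HasAD src dst := by
  classical
  set B' : ℕ → Finset V := fun i => if rep par B i = i then B i else ∅ with hB'
  set par' : ℕ → ℕ := fun i => rep par B (par i) with hpar'
  have sub' : ∀ i, B' i ⊆ B i := by
    intro i
    rw [hB']
    change (if rep par B i = i then B i else ∅) ⊆ B i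
    split_ifs
    · exact Subset.refl _
    · exact empty_subset _
  have hlt' : ∀ i, 0 < i → i < n → par' i < i := fun i h1 h2 =>
    (rep_le par B (par i)).trans_lt (h.lt i h1 h2)
  have hmem : ∀ i v, v ∈ B' i → rep par B i = i ∧ v ∈ B i := by
    intro i v hv
    change v ∈ (if rep par B i = i then B i else ∅) at hv
    split_ifs at hv with h1
    · exact ⟨h1, hv⟩
    · exact absurd hv (notMem_empty v)
  have hval : ∀ i, rep par B i = i → B' i = B i := fun i hi => if_pos hi
  have hRT : RT n par' B' := by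
    refine ⟨hlt', fun i j v hji hi hvi hvj => ?_⟩
    obtain ⟨-, h2⟩ := hmem i v hvi
    obtain ⟨-, h3⟩ := hmem j v hvj
    have h4 := h.conn i j v hji hi h2 h3
    change v ∈ B' (rep par B (par i))
    rw [hval _ (rep_rep par B _), rep_bag par B]
    exact h4
  -- adjacent small and big bags
  have hadj : ∀ i, 0 < i → i < n → ∀ C : Finset V, C ⊆ B i → C ⊆ B (par i) → 5 ≤ C.card →
      (B i).card ≤ 5 ∧ (B (par i)).card ≤ 5 := by
    intro i h1 h2 C hC1 hC2 hC5
    have hsub : C ⊆ B i ∩ B (par i) := subset_inter hC1 hC2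
    refine ⟨?_, ?_⟩
    · refine (hB i h2).resolve_right ?_
      rintro ⟨s, Z, z1, z2, -⟩
      obtain ⟨k, hk⟩ := z2 (par i) ((h.lt i h1 h2).trans h2) (Or.inl ⟨h1, rfl⟩)
      have := card_le_card (hsub.trans hk)
      have := z1 k
      omega
    · refine (hB (par i) ((h.lt i h1 h2).trans h2)).resolve_right ?_
      rintro ⟨s, Z, z1, z2, -⟩
      obtain ⟨k, hk⟩ := z2 i h2 (Or.inr ⟨h1, rfl⟩)
      have := card_le_card (hsub.trans ((inter_comm _ _).subset.trans hk))
      have := z1 k
      omega
  refine N399.TB.hasAD_of_tree (T := parTree n par') (parTree_isTree h0 hlt')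
    (fun i : Fin n => B' i) ?_ (hRT.path h0) ?_
  · intro e
    obtain ⟨i, hin, hi1, hi2⟩ := he e
    refine ⟨⟨rep par B i, (rep_le par B i).trans_lt hin⟩, ?_⟩
    change src e ∈ B' (rep par B i) ∧ dst e ∈ B' (rep par B i)
    rw [hval _ (rep_rep par B i), rep_bag par B]
    exact ⟨hi1, hi2⟩
  · intro b
    by_cases hb5 : (B' b).card ≤ 5
    · refine small_ok (B' b) (fun i : Fin n => B' i) (fun w => (parTree n par').Adj b w) hb5 ?_
      intro w hw h5 hsub
      have hne : (B' b).Nonempty := by
        rw [← card_pos]; omega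
      obtain ⟨x, hx⟩ := hne
      have hb := (hmem b x hx).1
      have hw' := (hmem w x (hsub hx)).1
      have h7 : (5 : ℕ) ≤ (B' b).card := h5.ge
      rcases hw with ⟨h1, h2, h3⟩ | ⟨h1, h2, h3⟩
      · -- `w` is the parent of `b`
        have hl := h.lt b h1 b.2
        have h4 : B' w = B (par b) := by
          rw [hval _ hw', ← h2]
          exact rep_bag par B (par b)
        have h6 := hadj b h1 b.2 (B' b) (sub' b) (h4 ▸ hsub) h7
        apply rep_ne hb hl
        have h8 : B' b = B b := hval _ hb
        rw [← h8]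
        exact eq_of_subset_of_card_le (h4 ▸ hsub) (by omega)
      · -- `b` is the parent of `w`
        have hl := h.lt w h1 w.2
        have h4 : B' b = B (par w) := by
          rw [hval _ hb, ← h2]
          exact rep_bag par B (par w)
        have h6 := hadj w h1 w.2 (B' b) (hsub.trans (sub' w)) h4.subset h7
        apply rep_ne hw' hl
        rw [← h4]
        exact (eq_of_subset_of_card_le (hsub.trans (sub' w)) (by omega)).symm
    · have hne : (B' b).Nonempty := by
        rw [← card_pos]; omega
      obtain ⟨x, hx⟩ := hne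
      have hb := (hmem b x hx).1
      have h8 : B' b = B b := hval _ hb
      rw [h8] at hb5
      obtain ⟨s, Z, z1, z2, z3⟩ := (hB b b.2).resolve_left hb5
      refine ⟨s, Z, z1, ?_, by rw [h8]; exact z3⟩
      intro w hw
      rcases hw with ⟨h1, h2, h3⟩ | ⟨h1, h2, h3⟩
      · have hl := h.lt b h1 b.2
        obtain ⟨i, hi⟩ := z2 (par b) (hl.trans b.2) (Or.inl ⟨h1, rfl⟩)
        refine ⟨i, ?_⟩
        rw [h8]
        refine (inter_subset_inter_left (sub' w)).trans ?_
        rw [← h2]
        change B b ∩ B (rep par B (par b)) ⊆ Z i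
        rw [rep_bag par B]
        exact hi
      · have hl := h.lt w h1 w.2
        -- the parent of `w` is `b`
        have h9 : par w = b := by
          by_contra hne
          obtain ⟨c, hc1, hc2, hc3, hc4⟩ := rep_child (B := B) (par w) h2 hne
          have hcn : c < n := (hc1.trans hl.le).trans_lt w.2
          have := hadj c (by omega) hcn (B b) hc4.symm.subset (by rw [hc3]) (by omega)
          rw [hc3] at this
          omega
        obtain ⟨i, hi⟩ := z2 w w.2 (Or.inr ⟨h1, h9⟩)
        refine ⟨i, ?_⟩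
        rw [h8]
        exact (inter_subset_inter_left (sub' w)).trans hi

end Pool.Agent.V5helper70.FF
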